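import Pool.Agent.Lib.MP_d40963_nt.Wron
import Pool.Agent.Lib.Common.Stepanov.Fibre

/-! Absolute irreducibility of `(f(Y) - f(X)) / ((Y - X)(Y + X - 1))`, `f = X^s + (1-X)^s`. -/

set_option autoImplicit false

namespace Pool.Agent.Lib.MP_d40963_nt

open Polynomial Pool.Agent.Lib.Common.Stepanov

variable {K : Type*} [Field K]

/-- The polynomial `X^s + (1-X)^s`. -/
noncomputable def fp (K : Type*) [Field K] (s : ℕ) : K[X] := X ^ s + (1 - X) ^ s

/-- The monic normalisation of `f(Y) - f(X)`. -/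
noncomputable def Gp (K : Type*) [Field K] (s : ℕ) : K[X][X] :=
  C (C (s : K)⁻¹) * ((fp K s).map C - C (fp K s))

theorem diff_deg (m : ℕ) : (X ^ (m + 1) - (X + C (-1)) ^ (m + 1) : K[X]).natDegree ≤ m ∧
    (X ^ (m + 1) - (X + C (-1)) ^ (m + 1) : K[X]).coeff m = (m + 1 : ℕ) := by
  constructor
  · refine natDegree_le_iff_coeff_eq_zero.2 fun j hj => ?_
    rw [coeff_sub, coeff_X_pow, coeff_X_add_C_pow]
    split_ifs with h
    · simp [h]
    · simp [Nat.choose_eq_zero_of_lt (show m + 1 < j by omega)]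
  · rw [coeff_sub, coeff_X_pow, coeff_X_add_C_pow]; simp

theorem fp_deg {m : ℕ} (hm : Even m) :
    (fp K (m + 1)).natDegree ≤ m ∧ (fp K (m + 1)).coeff m = (m + 1 : ℕ) := by
  have : fp K (m + 1) = X ^ (m + 1) - (X + C (-1)) ^ (m + 1) := by
    rw [fp, show (X + C (-1) : K[X]) = -(1 - X) by simp [sub_eq_add_neg, add_comm],
      hm.add_one.neg_pow, sub_neg_eq_add]
  rw [this]; exact diff_deg m

theorem Gp_monic {m : ℕ} (hm : Even m) (h0 : 0 < m) (hs : ((m + 1 : ℕ) : K) ≠ 0) :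
    (Gp K (m + 1)).Monic ∧ (Gp K (m + 1)).natDegree = m ∧ Gp K (m + 1) ∈ Fil K m := by
  have h1 := fp_deg (K := K) hm
  have h2 : Gp K (m + 1) ∈ Fil K m := by
    simpa [Gp] using Fil_mul (Fil_C (n := 0) (h := C ((m + 1 : ℕ) : K)⁻¹) (by simp))
      (sub_mem (Fil_map h1.1) (Fil_C h1.1))
  have h3 : (Gp K (m + 1)).coeff m = 1 := by
    rw [Gp, coeff_C_mul, coeff_sub, coeff_map, h1.2, coeff_C, if_neg h0.ne', sub_zero, ← C_mul,
      inv_mul_cancel₀ hs, C_1]
  have h4 : (Gp K (m + 1)).natDegree ≤ m :=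
    natDegree_le_iff_coeff_eq_zero.2 fun j hj => Fil_coeff_zero h2 hj
  exact ⟨monic_of_natDegree_le_of_coeff_eq_one _ h4 h3,
    natDegree_eq_of_le_of_coeff_ne_zero h4 (by simp [h3]), h2⟩

theorem Gp_eval (s : ℕ) (x y : K) : (Gp K s).evalEval x y =
    (s : K)⁻¹ * ((y ^ s + (1 - y) ^ s) - (x ^ s + (1 - x) ^ s)) := by
  simp [Gp, fp, evalEval_C]

theorem exists_phi (s : ℕ) : ∃ φ : K[X][X], Gp K s = (X - C X) * (X - C (1 - X)) * φ := by
  have h : ∀ u : K[X], (Gp K s).eval u = C (s : K)⁻¹ * ((u ^ s + (1 - u) ^ s) - fp K s) := by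
    intro u; simp [Gp, fp]
  obtain ⟨G, hG⟩ := dvd_iff_isRoot.2 (show (Gp K s).IsRoot X by rw [IsRoot, h, fp]; ring)
  have h2 : (Gp K s).eval (1 - X) = 0 := by rw [h, fp]; ring
  rw [hG, eval_mul, mul_eq_zero] at h2
  obtain ⟨φ, hφ⟩ := dvd_iff_isRoot.2 (h2.resolve_left fun e => by
    simpa using congrArg (eval 0) e)
  exact ⟨φ, by rw [hG, hφ, mul_assoc]⟩

theorem fp_derivative (m : ℕ) :
    derivative (fp K (m + 1)) = C ((m + 1 : ℕ) : K) * (X ^ m - (1 - X) ^ m) := by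
  rw [fp, derivative_add, derivative_X_pow_succ, derivative_pow_succ]
  push_cast; simp; ring

theorem mult_two {m : ℕ} (hs : ((m + 2 : ℕ) : K) ≠ 0) (hs' : ((m + 1 : ℕ) : K) ≠ 0) (w y : K) :
    ((X - C y) ^ 2 ∣ fp K (m + 2) - C w → y ^ (m + 1) = (1 - y) ^ (m + 1) ∧ y ^ (m + 1) = w) ∧
    ¬ (X - C y) ^ 3 ∣ fp K (m + 2) - C w := by
  have hd : derivative (fp K (m + 2) - C w) =
      C ((m + 2 : ℕ) : K) * (X ^ (m + 1) - (1 - X) ^ (m + 1)) := by
    rw [derivative_sub, derivative_C, sub_zero, fp_derivative]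
  have key : (X - C y) ^ 2 ∣ fp K (m + 2) - C w →
      y ^ (m + 1) = (1 - y) ^ (m + 1) ∧ y ^ (m + 1) = w := by
    intro h
    have h1 := dvd_iff_isRoot.1 ((dvd_pow_self _ two_ne_zero).trans h)
    have h2 := pow_sub_one_dvd_derivative_of_pow_dvd h
    rw [hd, show 2 - 1 = 1 from rfl, pow_one, dvd_iff_isRoot] at h2
    simp only [IsRoot, fp, eval_sub, eval_add, eval_pow, eval_X, eval_one, eval_C, eval_mul,
      mul_eq_zero, hs, false_or] at h1 h2
    exact ⟨sub_eq_zero.1 h2, by linear_combination h1 + (1 - y) * h2⟩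
  refine ⟨key, fun h => ?_⟩
  have h1 := (key ((pow_dvd_pow _ (by norm_num)).trans h)).1
  have h2 := pow_sub_one_dvd_derivative_of_pow_dvd (pow_sub_one_dvd_derivative_of_pow_dvd h)
  rw [hd, show 3 - 1 - 1 = 1 from rfl, pow_one, dvd_iff_isRoot, derivative_C_mul, derivative_sub,
    derivative_X_pow_succ, derivative_pow_succ] at h2
  have h3 : y ^ m + (1 - y) ^ m = 0 := by
    apply mul_left_cancel₀ (mul_ne_zero hs hs')
    simp only [IsRoot, eval_sub, eval_mul, eval_pow, eval_X, eval_one, eval_C, derivative_sub,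
      derivative_one, derivative_X, eval_zero] at h2
    push_cast at *
    linear_combination h2
  have h4 : (1 - y) ^ m = 0 := by linear_combination y * h3 - h1
  have h5 : y ^ m = 0 := by linear_combination h3 - h4
  rw [pow_eq_zero_iff (fun e => by simp [e] at h4)] at h5
  rw [h5, sub_zero, one_pow] at h4
  exact one_ne_zero h4

theorem exists_curve {φ : K[X][X]} (hm : φ.Monic) (hF : φ ∈ Fil K φ.natDegree)
    (h0 : 0 < φ.natDegree) (hi : ¬ Irreducible φ) : ∃ B B' : K[X][X], IsCurve B ∧ B'.Monic ∧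
      B' ∈ Fil K B'.natDegree ∧ φ = B * B' ∧ B.natDegree ≤ B'.natDegree := by
  classical
  have hex : ∃ d, ∃ q : K[X][X], q.Monic ∧ 0 < q.natDegree ∧ q ∣ φ ∧ q.natDegree = d :=
    ⟨_, φ, hm, h0, dvd_rfl, rfl⟩
  obtain ⟨B, h1, h2, ⟨B', h3⟩, h4⟩ := Nat.find_spec hex
  have hmin : ∀ q : K[X][X], q.Monic → 0 < q.natDegree → q ∣ φ → B.natDegree ≤ q.natDegree :=
    fun q a b c => h4 ▸ Nat.find_min' hex ⟨q, a, b, c, rfl⟩
  have h5 : B'.Monic := h1.of_mul_monic_left (h3 ▸ hm)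
  have hirr : Irreducible B := by
    rw [h1.irreducible_iff_lt_natDegree_lt (by rintro rfl; simp at h2)]
    intro q hq hd hqB
    have := hmin q hq (Finset.mem_Ioc.1 hd).1 (hqB.trans ⟨B', h3⟩)
    have := (Finset.mem_Ioc.1 hd).2
    omega
  refine ⟨B, B', ⟨h1, Fil_of_mul h1 h5 (h3 ▸ hF), hirr⟩, h5,
    Fil_of_mul h5 h1 (by rw [mul_comm, ← h3]; exact hF), h3, hmin _ h5 ?_ ⟨B, by rw [h3, mul_comm]⟩⟩
  rcases Nat.eq_zero_or_pos B'.natDegree with h | h
  · rw [h5.natDegree_eq_zero.1 h, mul_one] at h3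
    exact absurd (h3 ▸ hirr) hi
  · exact h

theorem phi_props {m : ℕ} (hm : Even m) (h0 : 2 < m) (hs : ((m + 1 : ℕ) : K) ≠ 0) {φ : K[X][X]}
    (hφ : Gp K (m + 1) = (X - C X) * (X - C (1 - X)) * φ) :
    φ.Monic ∧ φ.natDegree = m - 2 ∧ φ ∈ Fil K φ.natDegree := by
  obtain ⟨g1, g2, g3⟩ := Gp_monic hm (by omega) hs
  have hl : ((X - C X) * (X - C (1 - X)) : K[X][X]).Monic :=
    (monic_X_sub_C _).mul (monic_X_sub_C _)
  have h1 : φ.Monic := hl.of_mul_monic_left (hφ ▸ g1)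
  refine ⟨h1, ?_, Fil_of_mul h1 hl (by rw [mul_comm, ← hφ, g2]; exact g3)⟩
  rw [hφ, hl.natDegree_mul h1, (monic_X_sub_C _).natDegree_mul (monic_X_sub_C _),
    natDegree_X_sub_C, natDegree_X_sub_C] at g2
  omega

theorem phi_irreducible [IsAlgClosed K] (p : ℕ) [Fact p.Prime] [CharP K p] {n : ℕ} (hn : Odd n)
    (h3 : 3 ≤ n) (hp : (n + 2) ^ 2 < p) {φ : K[X][X]}
    (hφ : Gp K (n + 2) = (X - C X) * (X - C (1 - X)) * φ) (c : ℕ)
    (hc : ∀ x : K, x ^ (n + 1) = (1 - x) ^ (n + 1) → ∀ S : Finset K, (∀ y ∈ S, y ≠ x ∧ y ≠ 1 - x ∧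
      y ^ (n + 1) = x ^ (n + 1) ∧ (1 - y) ^ (n + 1) = x ^ (n + 1)) → S.card ≤ c)
    (hnum : ∀ d e, d + e + 1 = n → 0 < d → d ≤ e → n ≤ 3 * d + 6 → c * n < d * e) :
    Irreducible φ := by
  classical
  have hcast : ∀ j, 0 < j → j ≤ n + 2 → (j : K) ≠ 0 := fun j h1 h2 => by
    rw [Ne, CharP.cast_eq_zero_iff K p]
    exact Nat.not_dvd_of_pos_of_lt h1 (by nlinarith)
  have hs := hcast (n + 2) (by omega) le_rfl
  have hs' := hcast (n + 1) (by omega) (by omega)
  obtain ⟨f1, f2, f3⟩ := phi_props hn.add_one (by omega) hs hφ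
  by_contra hi
  obtain ⟨B, B', hB, b1, b2, b3, b4⟩ := exists_curve f1 f3 (by omega) hi
  have := hB.isDomain
  have hβ := hB.pos
  have hdeg : B.natDegree + B'.natDegree + 1 = n := by
    rw [b3, hB.monic.natDegree_mul b1] at f2; omega
  set h : K[X] := X ^ (n + 1) - (1 - X) ^ (n + 1) with hh
  have hhd : h.natDegree = n := by
    rw [hh, show (1 - X : K[X]) = -(X + C (-1)) by simp [sub_eq_add_neg, add_comm],
      hn.add_one.neg_pow]
    exact natDegree_eq_of_le_of_coeff_ne_zero (diff_deg n).1 (by rw [(diff_deg n).2]; exact hs')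
  have hh0 : h ≠ 0 := fun e => by rw [e] at hhd; simp at hhd; omega
  have hB0 : mkK B B = 0 := mkK_eq_zero.2 dvd_rfl
  have hid : mkK B (C h) = -(mkK B (X - C X) * mkK B (X - C (1 - X)) * mkK B B' *
      mkK B (dX K B)) := by
    have e1 : dX K (Gp K (n + 2)) = -C h := by
      rw [Gp, Derivation.leibniz, map_sub, dX_map, dX_C, dX_C, fp_derivative, derivative_C,
        ← hh, C_0, smul_zero, add_zero, smul_eq_mul, zero_sub, ← C_neg, ← C_mul, ← C_neg]
      have e0 : C ((n + 2 : ℕ) : K)⁻¹ * C ((n + 1 + 1 : ℕ) : K) = 1 := by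
        rw [← C_mul, inv_mul_cancel₀ hs, C_1]
      congr 1
      linear_combination (-h) * e0
    have e2 : Gp K (n + 2) = ((X - C X) * (X - C (1 - X)) * B') * B := by rw [hφ, b3]; ring
    rw [e2, Derivation.leibniz] at e1
    have e3 := congrArg (mkK B) e1
    simp only [smul_eq_mul, map_add, map_mul, map_neg, hB0, zero_mul, add_zero] at e3
    rw [e3, neg_neg]
  have hne : mkK B (C h) ≠ 0 := mkK_ne_zero hB.monic (C_ne_zero.2 hh0) (by rwa [natDegree_C])
  have hne' := hne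
  rw [hid, neg_ne_zero] at hne'
  simp only [mul_ne_zero_iff] at hne'
  obtain ⟨⟨⟨n1, n2⟩, n3⟩, n4⟩ := hne'
  have hlow : B.natDegree * B'.natDegree ≤ ell B (mkK B B') := by
    have e1 := ell_C hB h
    have e2 := ell_le_of_dvd hB (mul_ne_zero (mul_ne_zero (mul_ne_zero n1 n2) n3) n4)
      (u := mkK B (C h)) (by rw [hid]; simp)
    rw [ell_mul hB (mul_ne_zero (mul_ne_zero n1 n2) n3) n4, ell_mul hB (mul_ne_zero n1 n2) n3,
      ell_mul hB n1 n2, e1, hhd, ← hdeg] at e2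
    have l1 := ell_le hB (mem_W (B := B) (sub_mem Fil_X Fil_CX))
    have l2 := ell_le hB (mem_W (B := B) (sub_mem Fil_X
      (Fil_C (h := 1 - X) (n := 1) (by compute_degree))))
    have l3 := ell_le hB (mem_W (B := B) (Fil_dX hB.fil))
    obtain ⟨γ, hγ⟩ : ∃ γ, B.natDegree = γ + 1 := ⟨_, (Nat.sub_add_cancel hβ).symm⟩
    rw [show B.natDegree - 1 = γ by omega] at l3
    rw [hγ] at e2 l1 l2 l3 ⊢
    nlinarith
  have hup := ell_le_fibres hB n3 hh0 (by
    rw [hid, dvd_neg]; exact (dvd_mul_left _ _).mul_right _) c fun x hx => by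
    have hx' : x ^ (n + 1) = (1 - x) ^ (n + 1) := by simpa [hh, sub_eq_zero] using hx
    set u := B.map (evalRingHom x)
    set v := B'.map (evalRingHom x)
    have hu : u ≠ 0 := (hB.monic.map _).ne_zero
    have hg : EuclideanDomain.gcd u v ≠ 0 := fun e => hu (EuclideanDomain.gcd_eq_zero_iff.1 e).1
    refine ⟨_, _, _, hg, ?_, EuclideanDomain.gcd_eq_gcd_ab u v⟩
    have e1 : fp K (n + 2) - C (x ^ (n + 1)) =
        (X - C x) * (X - C (1 - x)) * (u * v) * C ((n + 2 : ℕ) : K) := by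
      have := congrArg (map (evalRingHom x)) hφ
      rw [b3, Gp] at this
      simp only [Polynomial.map_mul, Polynomial.map_sub, map_C, map_X, coe_evalRingHom, eval_C,
        eval_X, eval_sub, eval_one, Polynomial.map_map] at this
      rw [← this, show (evalRingHom x).comp C = RingHom.id K from by ext; simp, map_id, mul_comm,
        ← mul_assoc, ← C_mul, mul_inv_cancel₀ hs, C_1, one_mul]
      congr 2
      simp only [fp, eval_add, eval_pow, eval_X, eval_sub, eval_one]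
      linear_combination (1 - x) * hx'
    have e2 : ∀ y k, (X - C y) ^ k ∣ EuclideanDomain.gcd u v → (X - C y) ^ k * (X - C y) ^ k ∣ u * v :=
      fun y k hk => mul_dvd_mul (hk.trans (EuclideanDomain.gcd_dvd_left _ _))
        (hk.trans (EuclideanDomain.gcd_dvd_right _ _))
    have hnd : (EuclideanDomain.gcd u v).roots.Nodup := Multiset.nodup_iff_count_le_one.2 fun y => by
      rw [count_roots]
      by_contra hc
      have := e2 y 2 ((le_rootMultiplicity_iff hg).1 (by omega))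
      refine (mult_two hs hs' (x ^ (n + 1)) y).2 ?_
      rw [e1]
      exact (((Dvd.intro (X - C y) (by ring)).trans this).mul_left _).mul_right _
    rw [← IsAlgClosed.card_roots_eq_natDegree, ← Multiset.toFinset_card_of_nodup hnd]
    refine hc x hx' _ fun y hy => ?_
    have hy' := e2 y 1 (by
      rw [pow_one, dvd_iff_isRoot]; exact (mem_roots hg).1 (Multiset.mem_toFinset.1 hy))
    obtain ⟨m1, m2⟩ := mult_two hs hs' (x ^ (n + 1)) y
    rw [e1] at m1 m2
    have := m1 (((Dvd.intro 1 (by ring)).trans hy').mul_left _ |>.mul_right _)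
    obtain ⟨t, ht⟩ := hy'
    refine ⟨?_, ?_, this.2, this.1 ▸ this.2⟩
    · rintro rfl
      exact m2 (Dvd.dvd.mul_right (Dvd.intro ((X - C (1 - y)) * t) (by rw [ht]; ring)) _)
    · rintro rfl
      exact m2 (Dvd.dvd.mul_right (Dvd.intro ((X - C x) * t) (by rw [ht]; ring)) _)
  have hrel : mkK B (Gp K (n + 2)) = 0 := by rw [hφ, b3]; simp [hB0]
  have hb := degree_bound p hB n (by nlinarith) (by omega) (by
      rw [Gp, map_mul, mul_eq_zero] at hrel
      have := hrel.resolve_left (mkK_ne_zero hB.monic (by simpa using hs) (by rwa [natDegree_C]))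
      simp only [fp, Polynomial.map_add, Polynomial.map_pow, Polynomial.map_sub, map_X,
        Polynomial.map_one, map_sub, map_add, map_pow, map_one] at this
      exact (sub_eq_zero.1 this).symm)
    (fun e => n1 (by rw [map_sub, e, sub_self]))
    (fun e => n2 (by rw [map_sub, e]; simp))
  have := hnum _ _ hdeg hβ b4 hb
  rw [hhd] at hup
  omega

end Pool.Agent.Lib.MP_d40963_nt
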