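import Mathlib

/-! For fixed `m` and large characteristic, `x^m = (1-x)^m = y^m = (1-y)^m` forces
`y = x` or `y = 1 - x`. -/

set_option autoImplicit false

namespace Pool.Agent.Lib.MP_d40963_nt

open Polynomial

theorem complex_triv {u v w : ℂ} (hu : ‖u‖ = 1) (hv : ‖v‖ = 1) (hw : ‖w‖ = 1)
    (h : w * (1 + u) = 1 + v) : v = u ∨ v * u = 1 := by
  have h1 : Complex.normSq (1 + u) = Complex.normSq (1 + v) := by
    rw [← h, Complex.normSq_mul, Complex.normSq_eq_norm_sq w, hw]; simp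
  have h2 : Complex.normSq u = 1 := by rw [Complex.normSq_eq_norm_sq, hu]; simp
  have h3 : Complex.normSq v = 1 := by rw [Complex.normSq_eq_norm_sq, hv]; simp
  simp only [Complex.normSq_apply, Complex.add_re, Complex.one_re, Complex.add_im, Complex.one_im,
    zero_add] at h1 h2 h3
  have h4 : v.re = u.re := by nlinarith
  have h5 : (v.im - u.im) * (v.im + u.im) = 0 := by rw [h4] at h3; nlinarith
  rcases mul_eq_zero.1 h5 with h | h
  · exact Or.inl (Complex.ext h4 (by linarith))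
  · refine Or.inr (Complex.ext ?_ ?_)
    · simp only [Complex.mul_re, Complex.one_re, h4, show v.im = -u.im by linarith]; linarith
    · simp only [Complex.mul_im, Complex.one_im, h4, show v.im = -u.im by linarith]; ring

theorem root_triv (m : ℕ) (hm : 0 < m) (a b c : ℕ) : ∃ N : ℕ, ∀ p, N < p →
    ∀ (K : Type) [Field K] [CharP K p] (ω : K), IsPrimitiveRoot ω m →
      ω ^ c * (1 + ω ^ a) = 1 + ω ^ b → ω ^ b = ω ^ a ∨ ω ^ b * ω ^ a = 1 := by
  have h0 := Complex.isPrimitiveRoot_exp m hm.ne'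
  set z := Complex.exp (2 * Real.pi * Complex.I / m)
  by_cases h : z ^ c * (1 + z ^ a) = 1 + z ^ b
  · refine ⟨0, fun p _ K _ _ ω hω _ => ?_⟩
    have hz : ∀ j, ‖z ^ j‖ = 1 := fun j => by rw [norm_pow, h0.norm'_eq_one hm.ne', one_pow]
    rcases complex_triv (hz a) (hz b) (hz c) h with e | e
    · left
      rw [(h0.isOfFinOrder hm.ne').pow_eq_pow_iff_modEq, ← h0.eq_orderOf] at e
      rw [(hω.isOfFinOrder hm.ne').pow_eq_pow_iff_modEq, ← hω.eq_orderOf]; exact e
    · right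
      rw [← pow_add] at e ⊢
      exact (hω.pow_eq_one_iff_dvd _).2 ((h0.pow_eq_one_iff_dvd _).1 e)
  · have hd : IsDomain (AdjoinRoot (cyclotomic m ℤ)) :=
      AdjoinRoot.isDomain_of_prime (cyclotomic.irreducible hm).prime
    have hf := (AdjoinRoot.powerBasis' (cyclotomic.monic m ℤ)).finite
    set r := AdjoinRoot.root (cyclotomic m ℤ)
    have key : ∀ (L : Type) [Field L] (ω : L), IsPrimitiveRoot ω m →
        ∃ φ : AdjoinRoot (cyclotomic m ℤ) →+* L, φ r = ω := fun L _ ω hω =>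
      ⟨AdjoinRoot.lift (Int.castRingHom L) ω (by
        rw [eval₂_eq_eval_map, map_cyclotomic]; exact hω.isRoot_cyclotomic hm),
        AdjoinRoot.lift_root _⟩
    have hne : r ^ c * (1 + r ^ a) - (1 + r ^ b) ≠ 0 := fun e => by
      obtain ⟨φ, hφ⟩ := key ℂ z h0
      exact h (by simpa [hφ, sub_eq_zero] using congrArg φ e)
    obtain ⟨N, hN, hdv⟩ := (Algebra.IsAlgebraic.isAlgebraic (R := ℤ) _).exists_nonzero_dvd
      (mem_nonZeroDivisors_of_ne_zero hne)
    refine ⟨N.natAbs, fun p hp K _ _ ω hω e => ?_⟩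
    obtain ⟨φ, hφ⟩ := key K ω hω
    have := map_dvd φ hdv
    simp only [map_sub, map_mul, map_pow, map_add, map_one, hφ, e, sub_self, zero_dvd_iff,
      eq_intCast, map_intCast, CharP.intCast_eq_zero_iff K p] at this
    exact absurd (Nat.le_of_dvd (Int.natAbs_pos.2 hN) (Int.natCast_dvd.1 this)) (by omega)

theorem morse (m : ℕ) (hm : 0 < m) : ∃ N : ℕ, ∀ p, N < p →
    ∀ (K : Type) [Field K] [IsAlgClosed K] [CharP K p] (x y : K), x ^ m = (1 - x) ^ m →
      y ^ m = x ^ m → (1 - y) ^ m = x ^ m → y = x ∨ y = 1 - x := by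
  choose N hN using root_triv m hm
  refine ⟨m + (Finset.range m ×ˢ Finset.range m ×ˢ Finset.range m).sup fun t => N t.1 t.2.1 t.2.2,
    fun p hp K _ _ _ x y h1 h2 h3 => ?_⟩
  have : NeZero (m : K) := ⟨by
    rw [Ne, CharP.cast_eq_zero_iff K p]; exact Nat.not_dvd_of_pos_of_lt hm (by omega)⟩
  have : NeZero m := ⟨hm.ne'⟩
  obtain ⟨ω, hω⟩ := HasEnoughRootsOfUnity.exists_primitiveRoot K m
  have hx : 1 - x ≠ 0 := fun e => by
    rw [e, zero_pow hm.ne', pow_eq_zero_iff hm.ne'] at h1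
    simp [h1] at e
  have hw : x ^ m ≠ 0 := h1 ▸ pow_ne_zero _ hx
  have hy : 1 - y ≠ 0 := fun e => hw (by rw [← h3, e, zero_pow hm.ne'])
  obtain ⟨a, ha, ea⟩ := hω.eq_pow_of_pow_eq_one (ξ := x / (1 - x)) (by
    rw [div_pow, ← h1, div_self hw])
  obtain ⟨b, hb, eb⟩ := hω.eq_pow_of_pow_eq_one (ξ := y / (1 - y)) (by
    rw [div_pow, h2, h3, div_self hw])
  obtain ⟨c, hc, ec⟩ := hω.eq_pow_of_pow_eq_one (ξ := (1 - x) / (1 - y)) (by
    rw [div_pow, ← h1, h3, div_self hw])
  have := Finset.le_sup (f := fun t : ℕ × ℕ × ℕ => N t.1 t.2.1 t.2.2)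
    (show (a, b, c) ∈ Finset.range m ×ˢ Finset.range m ×ˢ Finset.range m by simp [ha, hb, hc])
  have := hN a b c p (by simp only at this; omega) K ω hω (by rw [ea, eb, ec]; field_simp; ring)
  rw [ea, eb] at this
  rcases this with e | e
  · left; field_simp at e; linear_combination e
  · right; field_simp at e; linear_combination e

end Pool.Agent.Lib.MP_d40963_nt
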