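import Mathlib

/-! Elementary structure of nice exponents. -/

set_option autoImplicit false

namespace Pool.Agent.Lib.MP_d40963_nt

variable {F : Type*} [Field F] [Fintype F]

/-- The number of solutions of `x + y = 1`, `x^s + y^s = v`. -/
noncomputable abbrev Nv (s : ℕ) (v : F) : ℕ :=
  Nat.card {xy : F × F // xy.1 + xy.2 = 1 ∧ xy.1 ^ s + xy.2 ^ s = v}

theorem Nv_eq (s : ℕ) (v : F) [DecidableEq F] :
    Nv s v = (Finset.univ.filter fun x : F => x ^ s + (1 - x) ^ s = v).card := by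
  rw [← Fintype.card_subtype, ← Nat.card_eq_fintype_card]
  exact Nat.card_congr ⟨fun q => ⟨q.1.1, by
      rw [← eq_sub_of_add_eq' q.2.1]; exact q.2.2⟩,
    fun x => ⟨(x.1, 1 - x.1), by simp, x.2⟩,
    fun q => Subtype.ext (Prod.ext rfl (eq_sub_of_add_eq' q.2.1).symm), fun x => rfl⟩

theorem Nv_parity (s : ℕ) (h2 : (2 : F) ≠ 0) (v : F) [DecidableEq F] :
    Nv s v % 2 = if (2⁻¹ : F) ^ s + (1 - 2⁻¹) ^ s = v then 1 else 0 := by
  let f : Function.End {xy : F × F // xy.1 + xy.2 = 1 ∧ xy.1 ^ s + xy.2 ^ s = v} :=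
    fun q => ⟨q.1.swap, by simpa [add_comm] using q.2⟩
  have h := Equiv.Perm.card_fixedPoints_modEq (f := f) (p := 2) (n := 1) rfl
  have e : (1 - 2⁻¹ : F) = 2⁻¹ := by field_simp; ring
  have key : ∀ q : f.fixedPoints, q.1.1 = (2⁻¹, 2⁻¹) := fun q => by
    have h1 : q.1.1.2 = q.1.1.1 := congrArg (fun t => t.1.1) q.2
    have h3 : q.1.1.1 = 2⁻¹ := by
      have := q.1.2.1
      rw [h1] at this
      field_simp; linear_combination this
    exact Prod.ext h3 (h1.trans h3)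
  rw [Nv, Nat.card_eq_fintype_card, h]
  split_ifs with hv
  · rw [Fintype.card_eq_one_iff.2 ⟨⟨⟨(2⁻¹, 2⁻¹), by field_simp; ring, by rwa [e] at hv⟩, rfl⟩,
      fun q => Subtype.ext (Subtype.ext (key q))⟩]
  · rw [Fintype.card_eq_zero_iff.2 ⟨fun q => hv (by simpa [key q, e] using q.1.2.2)⟩]

omit [Fintype F] in
theorem Nv_zero {s : ℕ} (hs : Odd s) (hi : ∀ x y : F, x ^ s = y ^ s → x = y) :
    Nv s (0 : F) = 0 := by
  refine Nat.card_eq_zero.2 (Or.inl ⟨fun q => ?_⟩)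
  have := hi q.1.1 (-q.1.2) (by rw [hs.neg_pow]; linear_combination q.2.2)
  exact one_ne_zero (by linear_combination this - q.2.1 : (1 : F) = 0)

/-- For a nice exponent, the fibres of `x^s + (1-x)^s` off the value at `1/2` are all pairs, or
all have more than two points. -/
theorem dichotomy {s : ℕ} (h2 : (2 : F) ≠ 0) (h0 : Nv s (0 : F) = 0)
    (hn : (Set.range fun v : F => Nv s v).ncard ≤ 3) :
    (∀ x y : F, x ^ s + (1 - x) ^ s ≠ 2⁻¹ ^ s + (1 - 2⁻¹) ^ s →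
      y ^ s + (1 - y) ^ s = x ^ s + (1 - x) ^ s → y = x ∨ y = 1 - x) ∨
    (∀ x : F, x ^ s + (1 - x) ^ s ≠ 2⁻¹ ^ s + (1 - 2⁻¹) ^ s →
      ∃ y, y ≠ x ∧ y ≠ 1 - x ∧ y ^ s + (1 - y) ^ s = x ^ s + (1 - x) ^ s) := by
  classical
  by_contra hc
  push Not at hc
  obtain ⟨⟨x, y, a1, a2, a3, a4⟩, z, b1, b2⟩ := hc
  have hne : ∀ x : F, x ^ s + (1 - x) ^ s ≠ 2⁻¹ ^ s + (1 - 2⁻¹) ^ s → x ≠ 1 - x := fun x hx e =>
    hx (by rw [show x = 2⁻¹ by field_simp; linear_combination e])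
  have c1 : 2 < Nv s (x ^ s + (1 - x) ^ s) := by
    rw [Nv_eq, Finset.two_lt_card_iff]
    exact ⟨x, 1 - x, y, by simp, by simp [add_comm], by simpa using a2, hne x a1, a3.symm, a4.symm⟩
  have c2 : Nv s (z ^ s + (1 - z) ^ s) = 2 := by
    rw [Nv_eq, Finset.card_eq_two]
    refine ⟨z, 1 - z, hne z b1, Finset.ext fun t => ?_⟩
    simp only [Finset.mem_filter, Finset.mem_univ, true_and, Finset.mem_insert,
      Finset.mem_singleton]
    refine ⟨fun h => by by_contra hh; push Not at hh; exact b2 t hh.1 hh.2 h, ?_⟩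
    rintro (rfl | rfl) <;> simp [add_comm]
  have c3 := Nv_parity s h2 (x ^ s + (1 - x) ^ s)
  have c4 := Nv_parity s h2 (2⁻¹ ^ s + (1 - 2⁻¹) ^ s : F)
  rw [if_neg a1.symm] at c3
  rw [if_pos rfl] at c4
  have := (Set.three_lt_ncard (Set.finite_range fun v : F => Nv s v)).2
    ⟨_, ⟨0, rfl⟩, _, ⟨x ^ s + (1 - x) ^ s, rfl⟩, _, ⟨z ^ s + (1 - z) ^ s, rfl⟩, _,
      ⟨2⁻¹ ^ s + (1 - 2⁻¹) ^ s, rfl⟩, by simp only []; omega⟩
  omega

omit [Fintype F] in
/-- Passing to the inverse exponent. -/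
theorem Nv_inv {s a : ℕ} (h : ∀ x : F, (x ^ a) ^ s = x) {w : F} (hw : w ≠ 0) :
    Nv a w = Nv s (w ^ s)⁻¹ := by
  have h' : ∀ x : F, (x ^ s) ^ a = x := fun x => by rw [← pow_mul, mul_comm, pow_mul, h]
  have hws := pow_ne_zero s hw
  refine Nat.card_congr ⟨fun q => ⟨(q.1.1 ^ a / w, q.1.2 ^ a / w), ?_, ?_⟩,
    fun q => ⟨((w * q.1.1) ^ s, (w * q.1.2) ^ s), ?_, ?_⟩, fun q => ?_, fun q => ?_⟩
  · rw [← add_div, q.2.2, div_self hw]
  · rw [div_pow, div_pow, h, h, ← add_div, q.2.1, one_div]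
  · rw [mul_pow, mul_pow, ← mul_add, q.2.2, mul_inv_cancel₀ hws]
  · rw [h', h', ← mul_add, q.2.1, mul_one]
  · exact Subtype.ext (Prod.ext (by simp [mul_div_cancel₀ _ hw, h]) (by
      simp [mul_div_cancel₀ _ hw, h]))
  · exact Subtype.ext (Prod.ext (by simp [h', hw]) (by simp [h', hw]))

theorem pow_congr {s a : ℕ} (hs : s ≠ 0) (ha : a ≠ 0) (h : s ≡ a [MOD Fintype.card F - 1])
    (x : F) : x ^ s = x ^ a := by
  rcases eq_or_ne x 0 with rfl | hx
  · rw [zero_pow hs, zero_pow ha]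
  · lift x to Fˣ using IsUnit.mk0 x hx
    rw [← Units.val_pow_eq_pow_val, ← Units.val_pow_eq_pow_val, Units.val_inj, pow_eq_pow_iff_modEq]
    classical
    exact h.of_dvd (Fintype.card_units F ▸ orderOf_dvd_card)

theorem pow_inj {s : ℕ} (hs : s ≠ 0) (h : s.Coprime (Fintype.card F - 1)) (x y : F)
    (e : x ^ s = y ^ s) : x = y := by
  rcases eq_or_ne y 0 with rfl | hy
  · rwa [zero_pow hs, pow_eq_zero_iff hs] at e
  · have hx : x ≠ 0 := fun h0 => by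
      rw [h0, zero_pow hs, eq_comm, pow_eq_zero_iff hs] at e; exact hy e
    have h1 : (x / y) ^ s = 1 := by rw [div_pow, e, div_self (pow_ne_zero s hy)]
    have h3 := pow_gcd_eq_one.2 ⟨h1, FiniteField.pow_card_sub_one_eq_one _ (div_ne_zero hx hy)⟩
    rwa [h, pow_one, div_eq_one_iff_eq hy] at h3

end Pool.Agent.Lib.MP_d40963_nt
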