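import Pool.Agent.Lib.MP_d40963_nt.Irred
import Pool.Agent.Lib.MP_d40963_nt.Morse
import Pool.Agent.Lib.MP_d40963_nt.Nice
import Pool.Agent.Lib.Common.Stepanov.Weil
import Pool.Agent.Lib.Common.Stepanov.HBK

/-! Small odd exponents `5 ≤ a ≤ (p/50)^(1/5)` are not nice over `𝔽_p`. -/

set_option autoImplicit false

namespace Pool.Agent.Lib.MP_d40963_nt

open Polynomial Pool.Agent.Lib.Common.Stepanov

theorem crit_bound : ∃ N : ℕ, ∀ p, N < p → ∀ [Fact p.Prime] (K : Type) [Field K] [IsAlgClosed K]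
    [CharP K p] (m : ℕ), 0 < m → 40 * m < p → ∃ c, (c = 0 ∨ 32040 ≤ m ∧ 10 * c ≤ m) ∧
      ∀ x : K, x ^ m = (1 - x) ^ m → ∀ S : Finset K, (∀ y ∈ S, y ≠ x ∧ y ≠ 1 - x ∧
        y ^ m = x ^ m ∧ (1 - y) ^ m = x ^ m) → S.card ≤ c := by
  choose N hN using fun m => morse (m + 1) m.succ_pos
  refine ⟨(Finset.range 32040).sup N, fun p hp _ K _ _ _ m h0 hm => ?_⟩
  rcases lt_or_ge m 32040 with h | h
  · refine ⟨0, Or.inl rfl, fun x hx S hS => ?_⟩
    obtain ⟨m, rfl⟩ := Nat.exists_eq_succ_of_ne_zero h0.ne'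
    rw [Nat.le_zero, Finset.card_eq_zero, Finset.eq_empty_iff_forall_notMem]
    intro y hy
    obtain ⟨h1, h2, h3, h4⟩ := hS y hy
    exact (hN m p ((Finset.le_sup (f := N) (Finset.mem_range.2 (by omega))).trans_lt hp) K x y hx
      h3 h4).elim h1 h2
  · refine ⟨m / 10, Or.inr ⟨h, by omega⟩, fun x hx S hS => ?_⟩
    have hx0 : x ^ m ≠ 0 := fun e => by
      have := (pow_eq_zero_iff h0.ne').1 e
      rw [e, this, sub_zero, one_pow] at hx
      exact zero_ne_one hx
    have := hbk p h hm _ _ S fun y hy => by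
      obtain ⟨-, -, h3, h4⟩ := hS y hy
      refine ⟨?_, ?_, h3, h4⟩ <;> rintro rfl
      · exact hx0 (by rw [← h3, zero_pow h0.ne'])
      · exact hx0 (by rw [← h4, sub_self, zero_pow h0.ne'])
    omega

theorem exists_zmod (p : ℕ) [Fact p.Prime] {K : Type*} [Field K] [CharP K p] [Algebra (ZMod p) K]
    {x : K} (hx : x ^ p = x) : ∃ t : ZMod p, algebraMap _ K t = x := by
  obtain ⟨n, rfl⟩ := (mem_bot_iff_intCast p K).1 ((Subfield.mem_bot_iff_pow_eq_self K p).2 hx)
  exact ⟨n, by simp⟩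

theorem num_bound {c d e n : ℕ} (h0 : 100 ≤ n) (hc : 10 * c ≤ n + 1) (h1 : d + e + 1 = n)
    (h3 : d ≤ e) (h4 : n ≤ 3 * d + 6) : c * n < d * e := by
  obtain ⟨t, rfl⟩ := Nat.exists_eq_add_of_le h3
  subst h1
  have := Nat.mul_le_mul_right (d + (d + t) + 1) hc
  have h5 : t ≤ d + 5 := by omega
  nlinarith [Nat.mul_le_mul_right t h5]

theorem not_nice : ∃ N : ℕ, ∀ p, N < p → ∀ [Fact p.Prime] (a : ℕ), Odd a → 5 ≤ a →
    50 * a ^ 5 ≤ p → Nv a (0 : ZMod p) = 0 →
      ¬ (Set.range fun v : ZMod p => Nv a v).ncard ≤ 3 := by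
  obtain ⟨N, hN⟩ := crit_bound
  refine ⟨N, fun p hp _ a ha h5 hap h0 hn => ?_⟩
  classical
  let K := AlgebraicClosure (ZMod p)
  obtain ⟨n, rfl⟩ : ∃ n, a = n + 2 := ⟨a - 2, by omega⟩
  have hn' : Odd n := by rw [Nat.odd_iff] at *; omega
  have e1 : 125 * (n + 2) ^ 2 ≤ (n + 2) ^ 5 := by
    rw [show (n + 2) ^ 5 = (n + 2) ^ 3 * (n + 2) ^ 2 by ring]
    exact Nat.mul_le_mul_right _ (Nat.pow_le_pow_left h5 3)
  have hcast : ∀ (L : Type) [Field L] [CharP L p] (j : ℕ), 0 < j → j ≤ n + 2 → (j : L) ≠ 0 :=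
    fun L _ _ j h1 h2 => by
      rw [Ne, CharP.cast_eq_zero_iff L p]
      exact Nat.not_dvd_of_pos_of_lt h1 (by nlinarith)
  have hs := hcast K (n + 2) (by omega) le_rfl
  obtain ⟨φ, hφ⟩ := exists_phi (K := K) (n + 2)
  obtain ⟨c, hc, hc'⟩ := hN p hp K (n + 1) n.succ_pos (by nlinarith)
  obtain ⟨f1, f2, f3⟩ := phi_props hn'.add_one (by omega) hs hφ
  have hB : IsCurve φ := ⟨f1, f3, phi_irreducible p hn' (by omega) (by nlinarith) hφ c hc'
    fun d e h1 h2 h3 h4 => by
      rcases hc with rfl | hc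
      · nlinarith
      · exact num_bound (by omega) hc.2 h1 h3 h4⟩
  have hβ : 50 * φ.natDegree ^ 5 < p := by
    have := Nat.pow_lt_pow_left (show φ.natDegree < n + 2 by omega) (n := 5) (by norm_num)
    omega
  let ι := algebraMap (ZMod p) K
  have hι : ∀ t, ι t ^ p = ι t := fun t => by rw [← map_pow, ZMod.pow_card]
  have hev : ∀ x y : K, ((n + 2 : ℕ) : K)⁻¹ * ((y ^ (n + 2) + (1 - y) ^ (n + 2)) -
      (x ^ (n + 2) + (1 - x) ^ (n + 2))) = (y - x) * (y - (1 - x)) * φ.evalEval x y := fun x y => by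
    rw [← Gp_eval, hφ]; simp [evalEval_C]
  have hev' : ∀ x y : K, φ.evalEval x y = 0 →
      y ^ (n + 2) + (1 - y) ^ (n + 2) = x ^ (n + 2) + (1 - x) ^ (n + 2) := fun x y h => by
    have := hev x y
    rwa [h, mul_zero, mul_eq_zero, or_iff_right (inv_ne_zero hs), sub_eq_zero] at this
  have hdeg : ∀ (L : Type) [Field L] [CharP L p] (v : L), fp L (n + 2) - C v ≠ 0 ∧
      (fp L (n + 2) - C v).natDegree ≤ n + 1 := fun L _ _ v => by
    have := fp_deg (K := L) hn'.add_one
    refine ⟨fun e => hcast L (n + 2) (by omega) le_rfl ?_, by rw [natDegree_sub_C]; exact this.1⟩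
    rw [← this.2, sub_eq_zero.1 e, coeff_C, if_neg (by omega)]
  rcases dichotomy (by exact_mod_cast hcast (ZMod p) 2 (by omega) (by omega)) h0 hn with h | h
  · set v := (2⁻¹ : ZMod p) ^ (n + 2) + (1 - 2⁻¹) ^ (n + 2)
    let R := Finset.univ.image ι
    let M := (R ×ˢ R).subtype fun q => φ.evalEval q.1 q.2 = 0
    have hR : ∀ x, x ∈ R ↔ ∃ t, ι t = x := fun x => by simp [R]
    have h1 := points_lower p hB hβ (fun x y hx hy => by
      have := hev x (y ^ p)
      have e : (y ^ p) ^ (n + 2) + (1 - y ^ p) ^ (n + 2) = x ^ (n + 2) + (1 - x) ^ (n + 2) := by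
        have := congrArg (frobenius K p) (hev' x y hy)
        simpa only [map_add, map_pow, map_sub, map_one, frobenius_def, hx] using this
      rw [e, sub_self, mul_zero, eq_comm, mul_eq_zero, mul_eq_zero, sub_eq_zero,
        sub_eq_zero] at this
      rcases this with (e | e) | e
      · obtain rfl : y = x := frobenius_inj K p (e.trans hx.symm)
        rwa [e]
      · obtain rfl : y = 1 - x := frobenius_inj K p (by
          rw [map_sub, map_one, frobenius_def, frobenius_def, e, hx])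
        rwa [e]
      · exact e) M fun q hx hy => by
        simp only [M, Finset.mem_subtype, Finset.mem_product, hR]
        exact ⟨exists_zmod p hx, exists_zmod p hy⟩
    have := hB.isDomain
    have hl : ∀ g : K[X], mkK φ (X - C g) ≠ 0 := fun g =>
      mkK_ne_zero f1 (X_sub_C_ne_zero g) (by rw [natDegree_X_sub_C]; omega)
    have h2 := count_one hB M (u := mkK φ ((X - C X) * (X - C (1 - X)) * C (fp K (n + 2) - C (ι v))))
      (by
        rw [map_mul, map_mul]
        exact mul_ne_zero (mul_ne_zero (hl _) (hl _)) (mkK_ne_zero f1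
          (C_ne_zero.2 (hdeg K _).1) (by rw [natDegree_C]; omega))) fun q hq => by
      obtain ⟨⟨x, y⟩, hq'⟩ := q
      simp only [M, Finset.mem_subtype, Finset.mem_product, hR] at hq
      obtain ⟨⟨x, rfl⟩, y, rfl⟩ := hq
      have e := hev' _ _ hq'
      rw [pt_mk]
      by_cases hv : x ^ (n + 2) + (1 - x) ^ (n + 2) = v
      · simp [evalEval_C, fp, ← hv]
      · rcases h x y hv (ι.injective (by simpa using e)) with rfl | rfl <;> simp [evalEval_C]
    have h3 := ell_le hB (mem_W (B := φ) (Fil_mul (Fil_mul (sub_mem Fil_X Fil_CX) (sub_mem Fil_X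
      (Fil_C (h := 1 - X) (n := 1) (by compute_degree)))) (Fil_C (hdeg K (ι v)).2)))
    obtain ⟨β, hβ'⟩ : ∃ β, φ.natDegree = β + 2 := ⟨φ.natDegree - 2, by omega⟩
    rw [hβ'] at h1 h3 hβ f2
    obtain rfl : n = β + 3 := by omega
    have := h2.trans h3
    nlinarith [Nat.zero_le (β ^ 5), Nat.zero_le (β ^ 4), Nat.zero_le (β ^ 3)]
  · set v := (2⁻¹ : ZMod p) ^ (n + 2) + (1 - 2⁻¹) ^ (n + 2) with hv
    choose! y hy using h
    let T := Finset.univ.filter fun x : ZMod p => x ^ (n + 2) + (1 - x) ^ (n + 2) ≠ v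
    have hT : p ≤ T.card + (n + 1) := by
      have h1 := card_le_degree_of_subset_roots (p := fp (ZMod p) (n + 2) - C v) (Z := Tᶜ)
        fun x hx => (mem_roots (hdeg _ v).1).2 (by simpa [T, fp, sub_eq_zero] using hx)
      have h2 := (hdeg _ v).2
      rw [Finset.card_compl, ZMod.card] at h1
      omega
    have hz : ∀ x z : ZMod p, z ≠ x → z ≠ 1 - x →
        z ^ (n + 2) + (1 - z) ^ (n + 2) = x ^ (n + 2) + (1 - x) ^ (n + 2) →
        φ.evalEval (ι x) (ι z) = 0 := fun x z h1 h2 h3 => by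
      have := hev (ι x) (ι z)
      have e := congrArg ι h3
      simp only [map_add, map_pow, map_sub, map_one] at e
      rw [e, sub_self, mul_zero, eq_comm, mul_eq_zero, mul_eq_zero, sub_eq_zero,
        sub_eq_zero] at this
      exact this.resolve_left (not_or.2 ⟨ι.injective.ne h1, by simpa using ι.injective.ne h2⟩)
    let g : T × Bool → Pts φ := fun t => ⟨(ι t.1, ι (if t.2 then y t.1 else 1 - y t.1)), by
      obtain ⟨h1, h2, h3⟩ := hy t.1 (Finset.mem_filter.1 t.1.2).2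
      split_ifs
      · exact hz _ _ h1 h2 h3
      · exact hz _ _ (fun e => h2 (by linear_combination -e)) (fun e => h1 (by linear_combination -e))
          (by rw [← h3, sub_sub_cancel, add_comm])⟩
    have hg : Function.Injective g := by
      rintro ⟨x, b⟩ ⟨x', b'⟩ e
      have e1 := ι.injective (congrArg (fun q : Pts φ => q.1.1) e)
      have e2 := ι.injective (congrArg (fun q : Pts φ => q.1.2) e)
      obtain rfl : x = x' := Subtype.ext e1
      have hx := (Finset.mem_filter.1 x.2).2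
      have h3 : y x ≠ 1 - y x := fun e => hx (by
        have h2 : (2 : ZMod p) ≠ 0 := by exact_mod_cast hcast (ZMod p) 2 (by omega) (by omega)
        rw [← (hy x hx).2.2, show y x = 2⁻¹ by field_simp; linear_combination e])
      cases b <;> cases b'
      exacts [rfl, absurd e2.symm h3, absurd e2 h3, rfl]
    have h1 := points_upper p hB hβ (Finset.univ.map ⟨g, hg⟩) fun q hq => by
      obtain ⟨t, -, rfl⟩ := Finset.mem_map.1 hq
      exact ⟨hι _, hι _⟩
    rw [Finset.card_map, Finset.card_univ, Fintype.card_prod, Fintype.card_coe,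
      Fintype.card_bool, f2] at h1
    have : (n + 1 - 2) ^ 2 ≤ (n + 2) ^ 2 := Nat.pow_le_pow_left (by omega) 2
    nlinarith

end Pool.Agent.Lib.MP_d40963_nt
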