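import Pool.Agent.Lib.Common.Stepanov.Curve

/-! A Wronskian (function field abc) lower bound for the degree of a component of
`x^s + (1-x)^s = y^s + (1-y)^s`. -/

set_option autoImplicit false

namespace Pool.Agent.Lib.MP_d40963_nt

open Polynomial Pool.Agent.Lib.Common.Stepanov

variable {K : Type*} [Field K]

theorem wronski {A : Type*} [CommRing A] [IsDomain A] [Algebra K A] (θ : Derivation K A A)
    (u v w : A) (hd : u * (θ v * θ (θ w) - θ w * θ (θ v)) - θ u * (v * θ (θ w) - w * θ (θ v)) +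
      θ (θ u) * (v * θ w - w * θ v) = 0) (h0 : v * θ w - w * θ v ≠ 0) (j : ℕ) :
    (v * θ w - w * θ v) * it θ j u + (w * θ u - u * θ w) * it θ j v +
      (u * θ v - v * θ u) * it θ j w = 0 := by
  induction j with
  | zero => simp only [it_zero]; ring
  | succ j ih =>
    have h1 := congrArg θ ih
    simp only [map_add, map_sub, Derivation.leibniz, smul_eq_mul, map_zero] at h1
    simp only [it_succ]
    apply mul_left_cancel₀ h0
    linear_combination (v * θ w - w * θ v) * h1 - (v * θ (θ w) - w * θ (θ v)) * ih -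
      (w * it θ j v - v * it θ j w) * hd

theorem th_pow {A : Type*} [CommRing A] [Algebra K A] (θ : Derivation K A A) (z : A) (n : ℕ) :
    θ (z ^ (n + 1)) = (n + 1) * z ^ n * θ z := by
  rw [Derivation.leibniz_pow]; simp [mul_assoc]

theorem degree_bound [IsAlgClosed K] (p : ℕ) [Fact p.Prime] [CharP K p] {B : K[X][X]}
    (hB : IsCurve B) (n : ℕ) (hp : B.natDegree * (n + 2) < p) (hβ : B.natDegree < n + 2)
    (hrel : mkK B (C X) ^ (n + 2) + (1 - mkK B (C X)) ^ (n + 2) =
      mkK B X ^ (n + 2) + (1 - mkK B X) ^ (n + 2))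
    (h1 : mkK B X ≠ mkK B (C X)) (h2 : mkK B X ≠ 1 - mkK B (C X)) :
    n ≤ 3 * B.natDegree + 6 := by
  have := hB.isDomain
  have hβ0 := hB.pos
  set x := mkK B (C X) with hx
  set y := mkK B X with hy
  set θ := th B with hθ
  have hxW : x ∈ W B 1 := mem_W Fil_CX
  have hyW : y ∈ W B 1 := mem_W Fil_X
  have hsub : ∀ z ∈ W B 1, 1 - z ∈ W B 1 := fun z hz => sub_mem (W_one B 1) hz
  have ha : θ x ≠ 0 := by rw [hx, hθ, th_x]; exact derivative_ne_zero p hB (by nlinarith)
  have hs : ((n + 1 : ℕ) + 1 : AdjoinRoot B) ≠ 0 := by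
    have : ((n + 2 : ℕ) : K) ≠ 0 := by
      rw [Ne, CharP.cast_eq_zero_iff K p]
      exact Nat.not_dvd_of_pos_of_lt (by omega) (by nlinarith)
    intro h
    refine (map_ne_zero (algebraMap K (AdjoinRoot B))).2 this ?_
    rw [map_natCast, ← h]; push_cast; ring
  have d1 : ∀ z : AdjoinRoot B, θ (1 - z) = -θ z := fun z => by simp
  have hb : θ y ≠ 0 := by
    intro hb
    have h3 := congrArg θ hrel
    simp only [map_add, th_pow, d1, hb] at h3
    have h4 : x ^ (n + 1) - (1 - x) ^ (n + 1) ≠ 0 := by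
      have := mkK_ne_zero (g := C (X ^ (n + 1) - (1 - X) ^ (n + 1))) hB.monic
        (C_ne_zero.2 fun h => by simpa using congrArg (eval 0) h) (by rwa [natDegree_C])
      simpa using this
    exact mul_ne_zero (mul_ne_zero hs h4) ha (by linear_combination h3)
  have ne0 : ∀ z : AdjoinRoot B, θ z ≠ 0 → z ≠ 0 ∧ 1 - z ≠ 0 := fun z hz =>
    ⟨fun h => hz (by simp [h]), fun h => hz (by rw [← sub_eq_zero.1 h]; simp)⟩
  have hell : ∀ m, ell B (x ^ m) = B.natDegree * m ∧ ell B ((1 - x) ^ m) = B.natDegree * m := by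
    intro m
    have e1 := ell_C hB (X ^ m)
    have e2 := ell_C hB ((1 - X) ^ m)
    rw [natDegree_pow, show (1 - X : K[X]).natDegree = 1 by compute_degree!] at e2
    simpa using And.intro e1 e2
  let r1 : AdjoinRoot B → AdjoinRoot B := fun z => ((n + 1 : ℕ) + 1) * z * θ z
  let r2 : AdjoinRoot B → AdjoinRoot B := fun z =>
    ((n + 1 : ℕ) + 1) * ((n + 1) * (θ z * θ z) + z * θ (θ z))
  have t1 : ∀ z, θ (z ^ (n + 2)) = z ^ n * r1 z := fun z => by rw [th_pow]; ring
  have t2 : ∀ z, θ (θ (z ^ (n + 2))) = z ^ n * r2 z := fun z => by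
    rw [th_pow, ← Nat.cast_succ, mul_assoc, ← nsmul_eq_mul, map_nsmul, Derivation.leibniz, th_pow]
    simp only [r2, smul_eq_mul, nsmul_eq_mul]; push_cast; ring
  let D : AdjoinRoot B → AdjoinRoot B := fun z =>
    z * z * (r1 y * r2 (1 - y) - r1 (1 - y) * r2 y) -
      r1 z * (y * y * r2 (1 - y) - (1 - y) * (1 - y) * r2 y) +
      r2 z * (y * y * r1 (1 - y) - (1 - y) * (1 - y) * r1 y)
  by_cases hD : D x = 0
  · exfalso
    have hα : y ^ (n + 2) * θ ((1 - y) ^ (n + 2)) - (1 - y) ^ (n + 2) * θ (y ^ (n + 2)) ≠ 0 := by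
      have : y ^ (n + 2) * θ ((1 - y) ^ (n + 2)) - (1 - y) ^ (n + 2) * θ (y ^ (n + 2)) =
          -(((n + 1 : ℕ) + 1) * (y ^ (n + 1) * (1 - y) ^ (n + 1)) * θ y) := by
        rw [th_pow, th_pow, d1]; ring
      rw [this, neg_ne_zero]
      exact mul_ne_zero (mul_ne_zero hs (mul_ne_zero (pow_ne_zero _ (ne0 y hb).1)
        (pow_ne_zero _ (ne0 y hb).2))) hb
    have hw := wronski θ (x ^ (n + 2)) (y ^ (n + 2)) ((1 - y) ^ (n + 2)) (by
      simp only [t2]
      simp only [t1]
      linear_combination (x ^ n * y ^ n * (1 - y) ^ n) * hD) hα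
    obtain ⟨q, hq⟩ := exists_pt hB (mul_ne_zero hα ha)
    rw [map_mul] at hq
    have hc := left_ne_zero_of_mul hq
    generalize y ^ (n + 2) * θ ((1 - y) ^ (n + 2)) - (1 - y) ^ (n + 2) * θ (y ^ (n + 2)) = c1 at *
    generalize (1 - y) ^ (n + 2) * θ (x ^ (n + 2)) - x ^ (n + 2) * θ ((1 - y) ^ (n + 2)) = c2 at *
    generalize x ^ (n + 2) * θ (y ^ (n + 2)) - y ^ (n + 2) * θ (x ^ (n + 2)) = c3 at *
    have hz := eq_zero_of_van p hB hp
      (u := pt q c1 • x ^ (n + 2) + pt q c2 • y ^ (n + 2) + pt q c3 • (1 - y) ^ (n + 2))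
      (by
        refine add_mem (add_mem ?_ ?_) ?_ <;> refine Submodule.smul_mem _ _ ?_
        · simpa using W_pow hxW (n + 2)
        · simpa using W_pow hyW (n + 2)
        · simpa using W_pow (hsub y hyW) (n + 2)) q
      (by rw [← th_x]; exact right_ne_zero_of_mul hq)
      (fun i => by simpa using congrArg (pt q) (hw i))
    have two : ∀ (z : AdjoinRoot B) (α γ : K), ell B (z ^ (n + 1)) = B.natDegree * (n + 1) →
        z ^ (n + 2) = algebraMap K _ α * y ^ (n + 2) + algebraMap K _ γ * (1 - y) ^ (n + 2) →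
        α = 0 ∨ γ = 0 := by
      intro z α γ hz e
      by_contra hc
      push Not at hc
      have e1 := congrArg θ e
      simp only [map_add, Derivation.leibniz, Derivation.map_algebraMap, th_pow, d1, smul_eq_mul]
        at e1
      have e2 : z ^ (n + 1) * (z * θ y - y * θ z) =
          (1 - y) ^ (n + 1) * (algebraMap K _ γ * θ y) := by
        apply mul_left_cancel₀ hs
        linear_combination (((n + 1 : ℕ) : AdjoinRoot B) + 1) * θ y * e - y * e1
      obtain ⟨g, hg⟩ := one_sub_dvd_one_sub_pow y (n + 2)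
      have hi : algebraMap K (AdjoinRoot B) α⁻¹ * algebraMap K _ α = 1 := by
        rw [← map_mul, inv_mul_cancel₀ hc.1, map_one]
      have e3 : IsCoprime z (1 - y) := ⟨algebraMap K _ α⁻¹ * z ^ (n + 1),
        g - algebraMap K _ α⁻¹ * algebraMap K _ γ * (1 - y) ^ (n + 1), by
          linear_combination algebraMap K _ α⁻¹ * e - hg + y ^ (n + 2) * hi⟩
      have e4 := (IsCoprime.pow e3).dvd_of_dvd_mul_left ⟨_, e2.symm⟩
      rw [IsUnit.dvd_mul_left (hc.2.isUnit.map _)] at e4
      have e5 := ell_le_of_dvd hB hb e4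
      have e6 : θ y ∈ W B (B.natDegree - 1) := by
        rw [hy, hθ, th_y]; exact neg_mem (mem_W (Fil_dX hB.fil))
      have e7 := e5.trans (ell_le hB e6)
      rw [hz] at e7
      have := Nat.le_of_mul_le_mul_left e7 hβ0
      omega
    have three : ∀ z : AdjoinRoot B, x ^ (n + 2) = z ^ (n + 2) →
        (1 - x) ^ (n + 2) = (1 - z) ^ (n + 2) → z = x := by
      intro z e e'
      have e1 := congrArg θ e
      have e2 := congrArg θ e'
      simp only [th_pow, d1] at e1 e2
      have e3 : z * θ x = x * θ z := by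
        apply mul_left_cancel₀ (mul_ne_zero hs (pow_ne_zero (n + 2) (ne0 x ha).1))
        linear_combination x * z * e1 - (((n + 1 : ℕ) : AdjoinRoot B) + 1) * x * θ z * e
      have e4 : (1 - z) * θ x = (1 - x) * θ z := by
        apply mul_left_cancel₀ (mul_ne_zero hs (pow_ne_zero (n + 2) (ne0 x ha).2))
        linear_combination -(1 - x) * (1 - z) * e2 -
          (((n + 1 : ℕ) : AdjoinRoot B) + 1) * (1 - x) * θ z * e'
      apply mul_right_cancel₀ ha
      linear_combination (1 - x) * e3 - x * e4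
    have hi : algebraMap K (AdjoinRoot B) (pt q c1)⁻¹ * algebraMap K _ (pt q c1) = 1 := by
      rw [← map_mul, inv_mul_cancel₀ hc, map_one]
    simp only [Algebra.smul_def] at hz
    obtain ⟨α, γ, e⟩ : ∃ α γ : K, x ^ (n + 2) =
        algebraMap K _ α * y ^ (n + 2) + algebraMap K _ γ * (1 - y) ^ (n + 2) :=
      ⟨-((pt q c1)⁻¹ * pt q c2), -((pt q c1)⁻¹ * pt q c3), by
        simp only [map_neg, map_mul]
        linear_combination algebraMap K (AdjoinRoot B) (pt q c1)⁻¹ * hz - x ^ (n + 2) * hi⟩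
    have e' : (1 - x) ^ (n + 2) = algebraMap K _ (1 - α) * y ^ (n + 2) +
        algebraMap K _ (1 - γ) * (1 - y) ^ (n + 2) := by
      simp only [map_sub, map_one]; linear_combination hrel - e
    rcases two x α γ (hell _).1 e with rfl | rfl <;>
      rcases two _ _ _ (hell _).2 e' with h | h
    · simp at h
    · obtain rfl := sub_eq_zero.1 h
      refine h2 ?_
      rw [← three (1 - y) (by simpa using e) (by simpa using e')]; ring
    · obtain rfl := sub_eq_zero.1 h
      exact h1 (three y (by simpa using e) (by simpa using e'))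
    · simp at h
  · have e0 : x ^ n * D x = (1 - x) ^ n * -D (1 - x) := by
      have a1 := congrArg θ hrel
      have a2 := congrArg θ a1
      simp only [map_add] at a1 a2
      simp only [t2] at a2
      simp only [t1] at a1
      simp only [D]
      linear_combination (r1 y * r2 (1 - y) - r1 (1 - y) * r2 y) * hrel -
        (y * y * r2 (1 - y) - (1 - y) * (1 - y) * r2 y) * a1 +
        (y * y * r1 (1 - y) - (1 - y) * (1 - y) * r1 y) * a2
    have e1 := (IsCoprime.pow (m := n) (n := n)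
      (show IsCoprime (1 - x) x from ⟨1, 1, by ring⟩)).dvd_of_dvd_mul_left ⟨_, e0⟩
    have w0 : ∀ z ∈ W B 1, z * z ∈ W B 2 := fun z hz => W_mul hz hz
    have wn : ∀ m : ℕ, ((m : AdjoinRoot B) + 1) ∈ W B 0 := fun m =>
      add_mem (W_natCast B m 0) (W_one B 0)
    have w1 : ∀ z ∈ W B 1, r1 z ∈ W B (2 + B.natDegree) := fun z hz =>
      W_mono (W_mul (W_mul (wn _) hz) (W_th hB hz)) (by omega)
    have w2 : ∀ z ∈ W B 1, r2 z ∈ W B (2 + 2 * B.natDegree) := fun z hz =>
      W_mono (W_mul (wn _) (add_mem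
        (W_mono (W_mul (wn _) (W_mul (W_th hB hz) (W_th hB hz))) (by omega))
        (W_mono (n := 2 + 2 * B.natDegree) (W_mul hz (W_th hB (W_th hB hz))) (by omega))))
        (by omega)
    have hy' := hsub y hyW
    have e2 : D x ∈ W B (3 * B.natDegree + 6) := add_mem (sub_mem
      (W_mono (W_mul (w0 x hxW) (sub_mem (W_mul (w1 y hyW) (w2 _ hy'))
        (W_mul (w1 _ hy') (w2 y hyW)))) (by omega))
      (W_mono (W_mul (w1 x hxW) (sub_mem (W_mul (w0 y hyW) (w2 _ hy'))
        (W_mul (w0 _ hy') (w2 y hyW)))) (by omega)))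
      (W_mono (W_mul (w2 x hxW) (sub_mem (W_mul (w0 y hyW) (w1 _ hy'))
        (W_mul (w0 _ hy') (w1 y hyW)))) (by omega))
    have e3 := (ell_le_of_dvd hB hD e1).trans (ell_le hB e2)
    rw [(hell n).2] at e3
    exact Nat.le_of_mul_le_mul_left e3 hβ0

end Pool.Agent.Lib.MP_d40963_nt
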